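import Mathlib

set_option autoImplicit false
open Complex Filter Topology Set Polynomial

namespace Pool.Agent.H.MP_26d9d0_an

lemma poly (N : ℕ) : ∀ f : ℂ → ℂ, Differentiable ℂ f → (∃ C, ∀ w, ‖f w‖ ≤ C * (1 + ‖w‖) ^ N) →
    ∃ P : ℂ[X], P.natDegree ≤ N ∧ f = P.eval := by
  induction N with
  | zero =>
    rintro f hf ⟨C, hC⟩
    obtain ⟨c, rfl⟩ := hf.exists_eq_const_of_bounded (isBounded_iff_forall_norm_le.2
      ⟨C, by rintro _ ⟨w, rfl⟩; simpa using hC w⟩)
    exact ⟨Polynomial.C c, by simp, by ext; simp⟩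
  | succ N ih =>
    rintro f hf ⟨C, hC⟩
    have hg : Differentiable ℂ (dslope f 0) := differentiableOn_univ.1
      ((differentiableOn_dslope univ_mem).2 hf.differentiableOn)
    obtain ⟨B, hB⟩ := (isCompact_closedBall (0:ℂ) 1).exists_bound_of_continuousOn
      hg.continuous.continuousOn
    have C0 : ‖f 0‖ ≤ C := by simpa using hC 0
    have e : ∀ w, w * dslope f 0 w = f w - f 0 := fun w => by simpa using sub_smul_dslope f 0 w
    obtain ⟨P, h1, h2⟩ := ih _ hg ⟨|B| + 4 * C, fun w => by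
      have o : 1 ≤ (1 + ‖w‖) ^ N := one_le_pow₀ (by linarith [norm_nonneg w])
      have c := (norm_nonneg _).trans C0
      rcases le_total ‖w‖ 1 with h | h
      · have := (hB w (mem_closedBall_zero_iff.2 h)).trans (le_abs_self B)
        nlinarith [abs_nonneg B]
      · refine le_of_mul_le_mul_left ?_ (one_pos.trans_le h)
        rw [← norm_mul, e]
        have a := hC w
        rw [pow_succ] at a
        have k := mul_nonneg c (zero_le_one.trans o)
        nlinarith [norm_sub_le (f w) (f 0), mul_le_mul_of_nonneg_left o c,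
          mul_le_mul_of_nonneg_left h k,
          mul_nonneg (norm_nonneg w) (mul_nonneg (abs_nonneg B) (zero_le_one.trans o))]⟩
    refine ⟨X * P + Polynomial.C (f 0), ?_, funext fun w => ?_⟩
    · rw [natDegree_add_C]
      exact natDegree_mul_le.trans (by rw [natDegree_X]; omega)
    · simp [← congrFun h2 w, e]

lemma dexp (h : ℂ) (n : ℕ) :
    (fwdDiff 1)^[n] (fun w : ℂ => exp (h * w)) = fun w => (exp h - 1) ^ n * exp (h * w) := by
  induction n with
  | zero => simp
  | succ n ih =>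
    rw [Function.iterate_succ_apply', ih]
    ext w; simp [fwdDiff, mul_add, exp_add]; ring

noncomputable def Q (w : ℂ) : ℂ := w * w * (3 + -2 * w)

lemma Q0 (m : ℕ) (w : ℂ) (h : ‖w‖ ≤ 1 / 10) : ‖Q^[m] w‖ ≤ 1 / 10 * (1 / 2) ^ m := by
  induction m with
  | zero => simpa using h
  | succ m ih =>
    rw [Function.iterate_succ_apply', Q, norm_mul, norm_mul, pow_succ]
    have a := norm_add_le (3:ℂ) (-2 * Q^[m] w)
    rw [norm_mul, norm_neg, Complex.norm_two, show ‖(3:ℂ)‖ = 3 by simp] at a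
    have o : (1 / 2 : ℝ) ^ m ≤ 1 := pow_le_one₀ (by norm_num) (by norm_num)
    have p := norm_nonneg (Q^[m] w)
    have : ‖Q^[m] w‖ * ‖3 + -2 * Q^[m] w‖ ≤ 1 / 2 := by nlinarith
    nlinarith

lemma Q1 (m : ℕ) (w : ℂ) : Q^[m] (1 - w) = 1 - Q^[m] w := by
  induction m with
  | zero => rfl
  | succ m ih => rw [Function.iterate_succ_apply', Function.iterate_succ_apply', ih, Q, Q]; ring

abbrev V := EuclideanSpace ℂ (Fin 2)

def G (f : V → ℂ) : Prop := Differentiable ℂ f ∧ ∃ (N : ℕ) (C : ℝ), ∀ z, ‖f z‖ ≤ C * (1 + ‖z‖) ^ N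

lemma Gc (c : ℂ) : G fun _ => c := ⟨differentiable_const c, 0, ‖c‖, fun _ => by simp⟩

lemma Gi (i : Fin 2) : G fun z => z i :=
  ⟨by fun_prop, 1, 1, fun z => by linarith [PiLp.norm_apply_le z i]⟩

lemma Gm {f g : V → ℂ} (hf : G f) (hg : G g) : G fun z => f z * g z := by
  obtain ⟨a, N, C, h⟩ := hf
  obtain ⟨b, M, D, k⟩ := hg
  refine ⟨a.mul b, N + M, C * D, fun z => ?_⟩
  rw [norm_mul, pow_add, mul_mul_mul_comm]
  exact mul_le_mul (h z) (k z) (norm_nonneg _) ((norm_nonneg _).trans (h z))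

lemma Ga {f g : V → ℂ} (hf : G f) (hg : G g) : G fun z => f z + g z := by
  obtain ⟨a, N, C, h⟩ := hf
  obtain ⟨b, M, D, k⟩ := hg
  refine ⟨a.add b, N + M, |C| + |D|, fun z => (norm_add_le _ _).trans ?_⟩
  have o : 1 ≤ 1 + ‖z‖ := by linarith [norm_nonneg z]
  rw [add_mul]
  exact add_le_add ((h z).trans (mul_le_mul (le_abs_self _) (pow_le_pow_right₀ o (by omega))
    (by positivity) (abs_nonneg _))) ((k z).trans (mul_le_mul (le_abs_self _)
    (pow_le_pow_right₀ o (by omega)) (by positivity) (abs_nonneg _)))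

lemma GQ (m : ℕ) : G fun z => Q^[m] (z 0) := by
  induction m with
  | zero => exact Gi 0
  | succ m ih =>
    simp only [Function.iterate_succ_apply', Q]
    exact Gm (Gm ih ih) (Ga (Gc _) (Gm (Gc _) ih))

noncomputable def T (k : ℕ) (w : ℂ) : ℂ := ∑ m ∈ Finset.range k, w ^ m / m.factorial

lemma GT (k : ℕ) : G fun z => T k (z 1) := by
  have p : ∀ m : ℕ, G fun z => z 1 ^ m := fun m => by
    induction m with
    | zero => simpa using Gc 1
    | succ m ih => simpa only [pow_succ] using Gm ih (Gi 1)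
  induction k with
  | zero => simpa [T] using Gc 0
  | succ k ih => simpa only [T, Finset.sum_range_succ, div_eq_mul_inv] using Ga ih (Gm (p k) (Gc _))

lemma Te (k : ℕ) (w : ℂ) (h : ‖w‖ ≤ 1 / 10) : ‖T k w - exp w‖ ≤ 2 * (1 / 2) ^ k := by
  rw [norm_sub_rev]
  have o : (1:ℝ) ≤ k.succ := by simp
  refine (exp_bound' ((div_le_self (norm_nonneg _) o).trans (by linarith))).trans ?_
  rw [mul_comm]
  refine mul_le_mul_of_nonneg_left ((div_le_self (by positivity) ?_).trans
    (pow_le_pow_left₀ (norm_nonneg _) (by linarith) k)) zero_le_two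
  exact_mod_cast k.factorial_pos

noncomputable def δ (z : V) : ℝ := (1 + ‖z‖)⁻¹

noncomputable def p (a b : ℂ) : V := !₂[a, b]

noncomputable def δ' (z : V) : ℝ := min (δ z) (max 0 (max (1 / 10 - ‖z 0‖) (1 / 10 - ‖z - p 1 0‖)))

lemma δp (z : V) : 0 < δ z := by unfold δ; positivity

lemma δ1 (z : V) : δ z ≤ 1 := inv_le_one_of_one_le₀ (by linarith [norm_nonneg z])

lemma δle (z : V) : δ' z ≤ δ z := min_le_left _ _

lemma δ0 (z : V) : 0 ≤ δ' z := le_min (δp z).le (le_max_left _ _)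

lemma δL : LipschitzWith 1 δ := by
  refine LipschitzWith.of_le_add_mul 1 fun s t => ?_
  rw [NNReal.coe_one, one_mul, dist_eq_norm]
  have n := norm_sub_norm_le t s
  rw [norm_sub_rev] at n
  have e : δ s - δ t = δ s * δ t * (‖t‖ - ‖s‖) := by unfold δ; field_simp; ring
  have o : δ s * δ t ≤ 1 := mul_le_one₀ (δ1 s) (δp t).le (δ1 t)
  nlinarith [norm_nonneg (s - t), mul_pos (δp s) (δp t)]

lemma δL' : LipschitzWith 1 δ' := by
  have a : LipschitzWith 1 fun z : V => 1 / 10 - ‖z 0‖ := LipschitzWith.of_le_add_mul 1 fun s t => by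
    rw [NNReal.coe_one, one_mul, dist_comm, dist_eq_norm]
    linarith [norm_sub_norm_le (t 0) (s 0), show ‖t 0 - s 0‖ ≤ _ from PiLp.norm_apply_le (t - s) 0]
  have b : LipschitzWith 1 fun z : V => 1 / 10 - ‖z - p 1 0‖ :=
    LipschitzWith.of_le_add_mul 1 fun s t => by
      rw [NNReal.coe_one, one_mul, dist_comm, dist_eq_norm]
      have := norm_sub_norm_le (t - p 1 0) (s - p 1 0)
      rw [sub_sub_sub_cancel_right] at this
      linarith
  have := δL.min ((a.max b).const_max 0)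
  simp only [max_self] at this
  exact this

lemma δt : Tendsto δ (cocompact V) (𝓝 0) :=
  tendsto_inv_atTop_zero.comp (tendsto_atTop_add_const_left _ 1 tendsto_norm_cocompact_atTop)

lemma np (a b : ℂ) : ‖p a b‖ ≤ ‖a‖ + ‖b‖ := by
  rw [EuclideanSpace.norm_eq, Real.sqrt_le_left (by positivity)]
  simp [p]; nlinarith [norm_nonneg a, norm_nonneg b]

lemma dp1 (a : ℂ) : Differentiable ℂ fun b => p a b :=
  differentiable_euclidean.2 fun i => by fin_cases i <;> simp [p]

lemma dp0 (b : ℂ) : Differentiable ℂ fun a => p a b :=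
  differentiable_euclidean.2 fun i => by fin_cases i <;> simp [p]

noncomputable def χ (z : V) : ℂ := if 1 / 2 < (z 0).re then 1 else 0

lemma cs (z : V) (h : 0 < δ' z) : (‖z 0‖ < 1 / 10 ∧ χ =ᶠ[𝓝 z] fun _ => 0) ∨
    (‖1 - z 0‖ < 1 / 10 ∧ ‖z 1‖ < 1 / 10 ∧ χ =ᶠ[𝓝 z] fun _ => 1) := by
  have c : Continuous fun z : V => (z 0).re := by fun_prop
  simp only [δ', lt_min_iff, lt_max_iff, lt_self_iff_false, false_or, sub_pos] at h
  rcases h.2 with h | h
  · refine Or.inl ⟨h, ?_⟩
    filter_upwards [c.continuousAt.eventually_lt (g := fun _ => 1 / 2) continuousAt_const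
      (by linarith [re_le_norm (z 0)])] with v hv using if_neg hv.le.not_gt
  · have a : ‖1 - z 0‖ < 1 / 10 := by
      rw [norm_sub_rev]; simpa [p] using (PiLp.norm_apply_le (z - p 1 0) 0).trans_lt h
    refine Or.inr ⟨a, by simpa [p] using (PiLp.norm_apply_le (z - p 1 0) 1).trans_lt h, ?_⟩
    have := re_le_norm (1 - z 0)
    rw [sub_re, one_re] at this
    filter_upwards [(continuousAt_const (y := (1 / 2 : ℝ))).eventually_lt c.continuousAt
      (show _ < (z 0).re by linarith)] with v hv using if_pos hv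

lemma dχ : DifferentiableOn ℂ χ {z | 0 < δ' z} := fun z hz => by
  rcases cs z hz with h | h
  · exact ((differentiableAt_const _).congr_of_eventuallyEq h.2).differentiableWithinAt
  · exact ((differentiableAt_const _).congr_of_eventuallyEq h.2.2).differentiableWithinAt

lemma Qχ (m : ℕ) (z : V) (hz : 0 < δ' z) : ‖Q^[m] (z 0) - χ z‖ ≤ (1 / 2) ^ m := by
  have o : (0:ℝ) < (1 / 2) ^ m := by positivity
  rcases cs z hz with h | h
  · rw [h.2.self_of_nhds, sub_zero]; linarith [Q0 m _ h.1.le]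
  · rw [h.2.2.self_of_nhds, norm_sub_rev, ← Q1]; linarith [Q0 m _ h.1.le]

lemma Tχ (k : ℕ) (z : V) (hz : 0 < δ' z) :
    ‖χ z * T k (z 1) - χ z * exp (z 1)‖ ≤ 2 * (1 / 2) ^ k := by
  rcases cs z hz with h | h
  · rw [h.2.self_of_nhds]; simp
  · rw [h.2.2.self_of_nhds, one_mul, one_mul]; exact Te k _ h.2.1.le

lemma Gδ {f : V → ℂ} (hf : G f) : ∃ (N : ℕ) (C : ℝ), ∀ z, δ z ^ N * ‖f z‖ ≤ C := by
  obtain ⟨-, N, C, h⟩ := hf
  refine ⟨N, C, fun z => ?_⟩
  rw [δ, inv_pow, inv_mul_le_iff₀ (by positivity), mul_comm]; exact h z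

lemma van (N : ℕ) (r : V → ℂ) (hr : Differentiable ℂ r) (h : ℂ) (hh : ‖h‖ ≤ 1)
    (hb : ∀ z, 0 < δ' z → δ' z ^ N * ‖r z - χ z * exp (z 1)‖ ≤ 1) :
    (fwdDiff 1)^[N + 1] (fun w => r (p 1 (h * w))) 0 = 0 := by
  have d : Differentiable ℂ fun a => (fwdDiff 1)^[N + 1] (fun w => r (p a (h * w))) 0 := by
    simp only [fwdDiff_iter_eq_sum_shift]
    exact Differentiable.fun_sum fun k _ => (hr.comp (dp0 _)).const_smul _
  refine (d.differentiableOn.analyticOnNhd isOpen_univ).eqOn_zero_of_preconnected_of_eventuallyEq_zero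
    isPreconnected_univ (mem_univ 0) ?_ (mem_univ 1)
  filter_upwards [Metric.ball_mem_nhds (0:ℂ) (show (0:ℝ) < 1 / 20 by norm_num)] with a ha
  rw [mem_ball_zero_iff] at ha
  obtain ⟨P, h1, h2⟩ := poly N (fun w => r (p a (h * w)))
    (hr.comp ((dp1 a).comp (by fun_prop))) ⟨20 ^ N, fun w => by
      have o : 0 < 20 * (1 + ‖w‖) := by positivity
      have l : (20 * (1 + ‖w‖))⁻¹ ≤ δ' (p a (h * w)) := by
        refine le_min (inv_anti₀ (by positivity) ?_) (le_max_of_le_right (le_max_of_le_left ?_))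
        · have := np a (h * w)
          rw [norm_mul] at this
          nlinarith [norm_nonneg w]
        · have : (20 * (1 + ‖w‖))⁻¹ ≤ 20⁻¹ := inv_anti₀ (by norm_num) (by linarith [norm_nonneg w])
          have e : p a (h * w) 0 = a := rfl
          rw [e]; linarith
      have := hb _ ((inv_pos.2 o).trans_le l)
      rw [show χ (p a (h * w)) = 0 from if_neg (by
        show ¬ 1 / 2 < a.re
        linarith [re_le_norm a]), zero_mul, sub_zero] at this
      have k := (mul_le_mul_of_nonneg_right (pow_le_pow_left₀ (inv_pos.2 o).le l N)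
        (norm_nonneg _)).trans this
      rwa [inv_pow, inv_mul_le_iff₀ (by positivity), mul_one, mul_pow] at k⟩
  rw [h2, Polynomial.fwdDiff_iter_eq_zero_of_degree_lt (Nat.lt_succ_of_le h1)]; rfl

lemma no (N : ℕ) (r : ℕ → V → ℂ) (hr : ∀ k, Differentiable ℂ (r k))
    (hb : ∀ ε > 0, ∀ᶠ k in atTop, ∀ z, 0 < δ' z → δ' z ^ N * ‖r k z - χ z * exp (z 1)‖ ≤ ε) :
    False := by
  set t : ℝ := 1 / (20 * (N + 1)) with ht
  have t0 : 0 < t := by positivity
  have tk : ∀ k : ℕ, k ≤ N + 1 → t * k ≤ 1 / 20 := fun k hk => by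
    have : (k : ℝ) ≤ N + 1 := by exact_mod_cast hk
    rw [ht, div_mul_eq_mul_div, div_le_div_iff₀ (by positivity) (by norm_num)]; linarith
  have pt : ∀ z, 0 < δ' z → Tendsto (fun k => r k z) atTop (𝓝 (χ z * exp (z 1))) := fun z hz => by
    refine Metric.tendsto_nhds.2 fun e he => ?_
    filter_upwards [hb (δ' z ^ N * (e / 2)) (by positivity)] with k hk
    rw [dist_eq_norm]; linarith [le_of_mul_le_mul_left (hk z hz) (pow_pos hz N)]
  have L : Tendsto (fun k => (fwdDiff 1)^[N + 1] (fun w => r k (p 1 (t * w))) 0) atTop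
      (𝓝 ((fwdDiff 1)^[N + 1] (fun w : ℂ => exp (t * w)) 0)) := by
    simp only [fwdDiff_iter_eq_sum_shift]
    refine tendsto_finsetSum _ fun k hk => Tendsto.const_smul ?_ _
    have := pt (p 1 (t * (0 + k • 1))) (lt_min (δp _) (lt_max_of_lt_right (lt_max_of_lt_right (by
      rw [show ∀ b, p 1 b - p 1 0 = p 0 b from fun b => by ext i; fin_cases i <;> simp [p]]
      have := np 0 (t * (0 + k • 1))
      simp only [norm_zero, zero_add, nsmul_eq_mul, mul_one, norm_mul, norm_real, norm_natCast,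
        Real.norm_of_nonneg t0.le] at this ⊢
      linarith [tk k (Nat.lt_succ_iff.1 (Finset.mem_range.1 hk))]))))
    rwa [show χ (p 1 (t * (0 + k • 1))) = 1 from if_pos (by
      show 1 / 2 < (1:ℂ).re
      norm_num), one_mul] at this
  have := tendsto_nhds_unique (L.congr' (f₂ := fun _ => 0) (by
    filter_upwards [hb 1 one_pos] with k hk
    exact van N _ (hr k) t (by
      rw [norm_real, Real.norm_of_nonneg t0.le]; linarith [tk 1 (by omega), Nat.cast_one (R := ℝ)]) hk))
    tendsto_const_nhds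
  rw [dexp] at this
  simp only [mul_zero, exp_zero, mul_one] at this
  have e := sub_eq_zero.1 (pow_eq_zero_iff (Nat.succ_ne_zero N) |>.1 this)
  rw [← ofReal_exp, ← ofReal_one, ofReal_inj, Real.exp_eq_one_iff] at e
  exact t0.ne' e

end Pool.Agent.H.MP_26d9d0_an
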